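import Pool.Agent.Lib.MP_3e50fa_lc.Groth
import Pool.Agent.Lib.MP_3e50fa_lc.PropT

/-!
# ZFC proves `gr ≤ prop_(T)`; in fact `prop_(T)` is the continuum

Conditions (T.1) and (T.2) do not change when a set is modified by a null set, so an
inclusion-maximal subalgebra of `Bor(2^ℕ)` with property (T) contains all Borel null sets, in
particular all singletons, and has cardinality `𝔠`.  On the other hand `P(ℕ)` is an infinite
Boolean algebra of cardinality `𝔠` with the Grothendieck property, so `gr ≤ 𝔠`.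
-/

open Cardinal

namespace Pool.Agent.Results.MP_3e50fa_lc.GrLePropT

open Pool.Agent.Lib.MP_3e50fa_lc

/-- Both minima exist, `prop_(T)` equals the continuum, and `gr ≤ prop_(T)`. -/
theorem result :
    IsLeast grothendieckCards gr ∧ IsLeast maximalTCards propT ∧ propT = 𝔠 ∧ gr ≤ propT := by
  have hP : 𝔠 ∈ grothendieckCards :=
    ⟨Set ℕ, inferInstance, inferInstance, hasGrothendieckProperty_setNat, by simp⟩
  have hT : ∀ κ ∈ maximalTCards, κ = 𝔠 := by
    rintro κ ⟨B, hB, rfl⟩
    exact card_of_maximal hB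
  have hTne : maximalTCards.Nonempty := by
    obtain ⟨B, hB⟩ := exists_maximal
    exact ⟨#B, B, hB, rfl⟩
  have h1 : IsLeast maximalTCards propT := ⟨csInf_mem hTne, fun κ hκ => csInf_le' hκ⟩
  have h2 : IsLeast grothendieckCards gr := ⟨csInf_mem ⟨_, hP⟩, fun κ hκ => csInf_le' hκ⟩
  have h3 : propT = 𝔠 := hT _ h1.1
  refine ⟨h2, h1, h3, ?_⟩
  rw [h3]
  exact h2.2 hP

end Pool.Agent.Results.MP_3e50fa_lc.GrLePropT
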